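import Pool.Agent.Helper20.HP.KKDefs

/-!
# Metrics on vector bundles: definitions

`B` is a normed space (the base), `W` a normed space (the fibre).
-/

open Filter Metric Module Set
open scoped Topology ContDiff RealInnerProductSpace Manifold

namespace Pool.Agent.Helper20.M8
open Pool.Agent.Helper20.PC Pool.Agent.Helper20.HP

section
variable {B W : Type*} [NormedAddCommGroup B] [NormedSpace ℝ B] [NormedAddCommGroup W] [NormedSpace ℝ W]

/-- first derivative of a family of bilinear forms on `W` parametrised by `B × W`. -/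
noncomputable def dNz (N : B × W → W →L[ℝ] W →L[ℝ] ℝ) (z u : B × W) (a b : W) : ℝ :=
  fderiv ℝ (fun z' => N z' a b) z u

/-- second derivative of a family of bilinear forms on `W` parametrised by `B × W`. -/
noncomputable def ddNz (N : B × W → W →L[ℝ] W →L[ℝ] ℝ) (z s u : B × W) (a b : W) : ℝ :=
  fderiv ℝ (fun z' => dNz N z' u a b) z s

/-- The metric `h + N(Λ,Λ)` on `B × W`. -/
noncomputable def nMet (h : B → B →L[ℝ] B →L[ℝ] ℝ) (N : B × W → W →L[ℝ] W →L[ℝ] ℝ)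
    (Λ : B × W → B × W →L[ℝ] W) (z : B × W) : (B × W) →L[ℝ] (B × W) →L[ℝ] ℝ :=
  (h z.1).bilinearComp (ContinuousLinearMap.fst ℝ B W) (ContinuousLinearMap.fst ℝ B W)
    + (N z).bilinearComp (Λ z) (Λ z)

/-- covariant second derivative of `N`. -/
noncomputable def hessNz (h : B → B →L[ℝ] B →L[ℝ] ℝ) (N : B × W → W →L[ℝ] W →L[ℝ] ℝ)
    (z u v : B × W) (a b : W) : ℝ :=
  ddNz N z u v a b - dNz N z (Gam h z.1 u.1 v.1, 0) a b

/-- `t` is the horizontal part of the difference tensor. -/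
def IsHz (h : B → B →L[ℝ] B →L[ℝ] ℝ) (N : B × W → W →L[ℝ] W →L[ℝ] ℝ) (Λ : B × W → B × W →L[ℝ] W)
    (z u v : B × W) (t : B) : Prop :=
  ∀ ξ : B, h z.1 t ξ = - (1/2) * dNz N z (ξ, 0) u.2 v.2 + (1/2) * N z v.2 (cc Λ z u (ξ, 0))
    + (1/2) * N z u.2 (cc Λ z v (ξ, 0))

/-- `t` is the vertical part of the difference tensor. -/
def IsVz (N : B × W → W →L[ℝ] W →L[ℝ] ℝ) (Λ : B × W → B × W →L[ℝ] W)
    (z u v : B × W) (t : W) : Prop :=
  ∀ ξ : W, N z t ξ = (1/2) * dNz N z u v.2 ξ + (1/2) * dNz N z v u.2 ξ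
    - (1/2) * dNz N z (0, ξ) u.2 v.2
    + (1/2) * N z v.2 (cc Λ z u (0, ξ)) + (1/2) * N z u.2 (cc Λ z v (0, ξ))

end

end Pool.Agent.Helper20.M8
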