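import Pool.Agent.Helper20.M8.SphDefs
import Pool.Agent.Helper20.M8.Normal2
import Pool.Agent.Helper20.HP.Jet

/-!
# Derivatives of the fibre form `fibL` in normal gauge
-/

open Filter Metric Module Set
open scoped Topology ContDiff RealInnerProductSpace Manifold

set_option maxSynthPendingDepth 3

namespace Pool.Agent.Helper20.M8
open Pool.Agent.Helper20.PC Pool.Agent.Helper20.HP
open Pool.Agent.Helper76.HP (ev_diff diff_fderiv contDiffAt_of_apply)

/-! ### jets along a line -/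

lemma hasJet_line {E : Type*} [NormedAddCommGroup E] [NormedSpace ℝ E] {f : E → ℝ} {z : E}
    (hf : ContDiffAt ℝ 2 f z) (u : E) :
    HasJet (fun t => f (z + t • u)) ⟨f z, fderiv ℝ f z u, fderiv ℝ (fderiv ℝ f) z u u⟩ := by
  have hl : ∀ t : ℝ, HasDerivAt (fun t : ℝ => z + t • u) u t := by
    intro t
    have := ((hasDerivAt_id t).smul_const u).const_add z
    simpa using this
  have h0 : z + (0 : ℝ) • u = z := by simp
  have hc : Tendsto (fun t : ℝ => z + t • u) (𝓝 0) (𝓝 z) := by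
    have := (hl 0).continuousAt.tendsto
    simpa using this
  refine ⟨by simp, fun t => fderiv ℝ f (z + t • u) u, ?_, by simp, ?_⟩
  · filter_upwards [hc.eventually (ev_diff hf)] with t ht
    exact ht.hasFDerivAt.comp_hasDerivAt t (hl t)
  · have h1 : HasFDerivAt (fderiv ℝ f) (fderiv ℝ (fderiv ℝ f) z) (z + (0 : ℝ) • u) := by
      rw [h0]; exact (diff_fderiv hf).hasFDerivAt
    have h2 := h1.comp_hasDerivAt (0 : ℝ) (hl 0)
    exact h2.clm_apply (hasDerivAt_const (0 : ℝ) u) |>.congr_deriv (by simp)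

lemma _root_.Pool.Agent.Helper20.HP.HasJet.unique {f : ℝ → ℝ} {j k : J2} (h1 : HasJet f j) (h2 : HasJet f k) : j = k := by
  obtain ⟨a1, b1⟩ := h1.deriv_eq
  obtain ⟨a2, b2⟩ := h2.deriv_eq
  ext
  · rw [← h1.1, h2.1]
  · rw [← a1, a2]
  · rw [← b1, b2]

lemma hasJet_id : HasJet (fun t => t) ⟨0, 1, 0⟩ := by
  have := HasJet.quad 0 1 0
  simpa using this

lemma _root_.Pool.Agent.Helper20.HP.HasJet.congr' {f g : ℝ → ℝ} {j : J2} (h1 : HasJet f j) (h : ∀ t, g t = f t) : HasJet g j := by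
  have : g = f := funext h
  rw [this]; exact h1

lemma _root_.Pool.Agent.Helper20.HP.HasJet.congrE {f g : ℝ → ℝ} {j : J2} (h1 : HasJet f j) (h : g =ᶠ[𝓝 0] f) : HasJet g j := by
  obtain ⟨h0, f', h1, h2, h3⟩ := h1
  refine ⟨by rw [h.self_of_nhds, h0], f', ?_, h2, h3⟩
  filter_upwards [h1, h.eventually_nhds] with t a b
  exact a.congr_of_eventuallyEq b

section
variable {B W : Type*} [NormedAddCommGroup B] [NormedSpace ℝ B] [NormedAddCommGroup W] [NormedSpace ℝ W]
  {h : B → B →L[ℝ] B →L[ℝ] ℝ} {m : B → W →L[ℝ] W →L[ℝ] ℝ}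
  {S : B → W →L[ℝ] W →L[ℝ] W →L[ℝ] W →L[ℝ] ℝ} {A : B → B →L[ℝ] W →L[ℝ] W} {x : B}

lemma fibL_apply (δ : ℝ) (z : B × W) (a b : W) :
    fibL m S δ z a b = ((m z.1 z.2 z.2) ^ 2)⁻¹ * ((1 - δ ^ 2) * (m z.1 z.2 a * m z.1 z.2 b)
      + δ ^ 2 * m z.1 z.2 z.2 * m z.1 a b - δ ^ 4 * S z.1 z.2 a z.2 b) := by
  simp [fibL]

/-- jets of `m`. -/
lemma jet_m (H : NG h m S A x) (ζ : B) (a b : W) :
    HasJet (fun t => m (x + t • ζ) a b) (J2.C (m x a b)) := by
  have hs := H.hm.smooth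
  have hf : ContDiffAt ℝ 2 (fun x' => m x' a b) x :=
    (hs.clm_apply contDiffAt_const).clm_apply contDiffAt_const
  have d1 : fderiv ℝ (fun x' => m x' a b) x ζ = 0 := by
    have := Pool.Agent.Helper76.HP.dN_eq (N := m) (hs.differentiableAt (by norm_num)) ζ a b
    rw [dN, H.m1] at this
    simpa using this
  have d2 : fderiv ℝ (fderiv ℝ (fun x' => m x' a b)) x ζ ζ = 0 := by
    have h1 := Pool.Agent.Helper76.HP.ddN_eq (N := m) hs ζ ζ a b
    have h2 := ((diff_fderiv hf).hasFDerivAt.clm_apply (hasFDerivAt_const ζ x)).fderiv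
    rw [ddN] at h1
    simp only [dN] at h1
    rw [h2, H.m2] at h1
    simpa using h1
  have h3 := hasJet_line hf ζ
  rw [d2, d1] at h3
  simpa [J2.C] using h3

/-- jets of `S`. -/
lemma jet_S (hS : ContDiffAt ℝ 2 S x) (ζ : B) (a b c d : W) :
    HasJet (fun t => S (x + t • ζ) a b c d) ⟨S x a b c d, dS4 S x ζ a b c d, ddS4 S x ζ ζ a b c d⟩ := by
  have hs : ContDiffAt ℝ 2 (fun x' => S x' a b c d) x :=
    (((hS.clm_apply contDiffAt_const).clm_apply contDiffAt_const).clm_apply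
      contDiffAt_const).clm_apply contDiffAt_const
  have h1 := hasJet_line hs ζ
  have h2 : ddS4 S x ζ ζ a b c d = fderiv ℝ (fderiv ℝ (fun x' => S x' a b c d)) x ζ ζ := by
    have := ((diff_fderiv hs).hasFDerivAt.clm_apply (hasFDerivAt_const ζ x)).fderiv
    rw [ddS4]
    simp only [dS4]
    rw [this]
    simp
  rw [h2]
  exact h1

/-- the jet of `m(y + tp, a)`. -/
lemma jet_my (H : NG h m S A x) (ζ : B) (y p a : W) :
    HasJet (fun t => m (x + t • ζ) (y + t • p) a) ⟨m x y a, m x p a, 0⟩ := by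
  have h1 := (jet_m H ζ y a).add (hasJet_id.mul (jet_m H ζ p a))
  have h2 := HasJet.congr' h1 (g := fun t => m (x + t • ζ) (y + t • p) a) (by intro t; simp)
  convert h2 using 1
  ext <;> simp

/-- the jet of `m(y + tp, y + tp)`. -/
lemma jet_myy (H : NG h m S A x) (ζ : B) (y p : W) :
    HasJet (fun t => m (x + t • ζ) (y + t • p) (y + t • p)) ⟨m x y y, 2 * m x y p, 2 * m x p p⟩ := by
  have h1 := (jet_my H ζ y p y).add (hasJet_id.mul (jet_my H ζ y p p))
  have h2 := HasJet.congr' h1 (g := fun t => m (x + t • ζ) (y + t • p) (y + t • p)) (by intro t; simp; ring)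
  have e := H.hm.symm.self_of_nhds
  convert h2 using 1
  ext
  · simp
  · simp [e p y]; ring
  · simp

/-- the jet of `S(y + tp, a; y + tp, b)`. -/
lemma jet_Syy (hS : ContDiffAt ℝ 2 S x) (ζ : B) (y p a b : W) :
    HasJet (fun t => S (x + t • ζ) (y + t • p) a (y + t • p) b) ⟨S x y a y b,
      dS4 S x ζ y a y b + S x p a y b + S x y a p b,
      ddS4 S x ζ ζ y a y b + 2 * (dS4 S x ζ p a y b + dS4 S x ζ y a p b) + 2 * S x p a p b⟩ := by
  have h1 := ((jet_S hS ζ y a y b).add (hasJet_id.mul ((jet_S hS ζ p a y b).add (jet_S hS ζ y a p b)))).add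
    ((hasJet_id.mul hasJet_id).mul (jet_S hS ζ p a p b))
  have h2 := HasJet.congr' h1 (g := fun t => S (x + t • ζ) (y + t • p) a (y + t • p) b)
    (by intro t; simp; ring)
  convert h2 using 1
  ext
  · simp
  · simp; ring
  · simp

lemma contDiffAt_fibL [FiniteDimensional ℝ W] {z : B × W} (hm : ContDiffAt ℝ 2 m z.1) (hS : ContDiffAt ℝ 2 S z.1)
    (hy : m z.1 z.2 z.2 ≠ 0) (δ : ℝ) : ContDiffAt ℝ 2 (fibL m S δ) z := by
  refine contDiffAt_of_apply (fun a => contDiffAt_of_apply (fun b => ?_))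
  simp only [fibL_apply]
  have m' : ContDiffAt ℝ 2 (fun w : B × W => m w.1) z := hm.comp z contDiffAt_fst
  have S' : ContDiffAt ℝ 2 (fun w : B × W => S w.1) z := hS.comp z contDiffAt_fst
  have my : ContDiffAt ℝ 2 (fun w : B × W => m w.1 w.2) z := m'.clm_apply contDiffAt_snd
  have myy : ContDiffAt ℝ 2 (fun w : B × W => m w.1 w.2 w.2) z := my.clm_apply contDiffAt_snd
  have mya : ∀ a, ContDiffAt ℝ 2 (fun w : B × W => m w.1 w.2 a) z := fun a => my.clm_apply contDiffAt_const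
  have mab : ContDiffAt ℝ 2 (fun w : B × W => m w.1 a b) z :=
    (m'.clm_apply contDiffAt_const).clm_apply contDiffAt_const
  have Sy : ContDiffAt ℝ 2 (fun w : B × W => S w.1 w.2 a w.2 b) z :=
    (((S'.clm_apply contDiffAt_snd).clm_apply contDiffAt_const).clm_apply contDiffAt_snd).clm_apply
      contDiffAt_const
  exact ((myy.pow 2).inv (pow_ne_zero 2 hy)).mul (((contDiffAt_const.mul ((mya a).mul (mya b))).add
    ((contDiffAt_const.mul myy).mul mab)).sub (contDiffAt_const.mul Sy))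

/-- jet of the numerator. -/
lemma jet_K (H : NG h m S A x) (δ : ℝ) (ζ : B) (y p a b : W) :
    HasJet (fun t => (1 - δ ^ 2) * (m (x + t • ζ) (y + t • p) a * m (x + t • ζ) (y + t • p) b)
      + δ ^ 2 * (m (x + t • ζ) (y + t • p) (y + t • p) * m (x + t • ζ) a b)
      - δ ^ 4 * S (x + t • ζ) (y + t • p) a (y + t • p) b)
      ⟨(1 - δ ^ 2) * (m x y a * m x y b) + δ ^ 2 * (m x y y * m x a b) - δ ^ 4 * S x y a y b,
       (1 - δ ^ 2) * (m x p a * m x y b + m x y a * m x p b) + δ ^ 2 * (2 * m x y p * m x a b)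
        - δ ^ 4 * (dS4 S x ζ y a y b + S x p a y b + S x y a p b),
       (1 - δ ^ 2) * (2 * (m x p a * m x p b)) + δ ^ 2 * (2 * m x p p * m x a b)
        - δ ^ 4 * (ddS4 S x ζ ζ y a y b + 2 * (dS4 S x ζ p a y b + dS4 S x ζ y a p b)
          + 2 * S x p a p b)⟩ := by
  have h1 := (((jet_my H ζ y p a).mul (jet_my H ζ y p b)).smul (1 - δ ^ 2)).add
    (((jet_myy H ζ y p).mul (jet_m H ζ a b)).smul (δ ^ 2))
  have h2 := h1.sub ((jet_Syy H.hS ζ y p a b).smul (δ ^ 4))
  convert h2 using 1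
  ext
  · simp
  · simp only [J2.sub_b, J2.add_b, J2.smul_b, J2.mul_b, J2.C_a, J2.C_b]; ring
  · simp only [J2.sub_c, J2.add_c, J2.smul_c, J2.mul_c, J2.C_a, J2.C_b, J2.C_c]; ring

variable [FiniteDimensional ℝ W]

lemma jet_N (H : NG h m S A x) {δ : ℝ} {y : W} (hy : m x y y = 1) (ζ : B) (p a b : W) :
    HasJet (fun t => fibL m S δ ((x, y) + t • (ζ, p)) a b) ⟨fibL m S δ (x, y) a b,
      dNz (fibL m S δ) (x, y) (ζ, p) a b, ddNz (fibL m S δ) (x, y) (ζ, p) (ζ, p) a b⟩ := by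
  have hN : ContDiffAt ℝ 2 (fibL m S δ) (x, y) :=
    contDiffAt_fibL H.hm.smooth H.hS (by rw [show m (x, y).1 (x, y).2 (x, y).2 = 1 from hy]; norm_num) δ
  have hf : ContDiffAt ℝ 2 (fun z => fibL m S δ z a b) (x, y) :=
    (hN.clm_apply contDiffAt_const).clm_apply contDiffAt_const
  have h1 := hasJet_line hf (ζ, p)
  have h2 : ddNz (fibL m S δ) (x, y) (ζ, p) (ζ, p) a b
      = fderiv ℝ (fderiv ℝ (fun z => fibL m S δ z a b)) (x, y) (ζ, p) (ζ, p) := by
    have := ((diff_fderiv hf).hasFDerivAt.clm_apply (hasFDerivAt_const (ζ, p) (x, y))).fderiv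
    rw [ddNz]
    simp only [dNz]
    rw [this]
    simp
  rw [h2]
  exact h1

/-- the equations between the jets. -/
lemma N_eqs (H : NG h m S A x) {δ : ℝ} {y : W} (hy : m x y y = 1) (ζ : B) (p a b : W) :
    fibL m S δ (x, y) a b = (1 - δ ^ 2) * (m x y a * m x y b) + δ ^ 2 * m x a b
      - δ ^ 4 * S x y a y b ∧
    dNz (fibL m S δ) (x, y) (ζ, p) a b + 4 * m x y p * fibL m S δ (x, y) a b
      = (1 - δ ^ 2) * (m x p a * m x y b + m x y a * m x p b) + δ ^ 2 * (2 * m x y p * m x a b)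
        - δ ^ 4 * (dS4 S x ζ y a y b + S x p a y b + S x y a p b) ∧
    ddNz (fibL m S δ) (x, y) (ζ, p) (ζ, p) a b + 8 * m x y p * dNz (fibL m S δ) (x, y) (ζ, p) a b
        + (8 * (m x y p) ^ 2 + 4 * m x p p) * fibL m S δ (x, y) a b
      = (1 - δ ^ 2) * (2 * (m x p a * m x p b)) + δ ^ 2 * (2 * m x p p * m x a b)
        - δ ^ 4 * (ddS4 S x ζ ζ y a y b + 2 * (dS4 S x ζ p a y b + dS4 S x ζ y a p b)
          + 2 * S x p a p b) := by
  have h1 := jet_myy H ζ y p
  have h2 := (h1.mul h1).mul (jet_N H hy ζ p a b (δ := δ))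
  have h3 := jet_K H δ ζ y p a b
  have hM : ∀ᶠ t in 𝓝 (0 : ℝ), m (x + t • ζ) (y + t • p) (y + t • p) ≠ 0 := by
    obtain ⟨c0, f', c1, c2, c3⟩ := h1
    have c4 : ContinuousAt (fun t : ℝ => m (x + t • ζ) (y + t • p) (y + t • p)) 0 :=
      c1.self_of_nhds.continuousAt
    refine c4.eventually_ne ?_
    have : m (x + (0 : ℝ) • ζ) (y + (0 : ℝ) • p) (y + (0 : ℝ) • p) = m x y y := by simp
    rw [this, hy]; norm_num
  have h4 := h3.congrE (g := fun t : ℝ => m (x + t • ζ) (y + t • p) (y + t • p)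
      * m (x + t • ζ) (y + t • p) (y + t • p) * fibL m S δ ((x, y) + t • (ζ, p)) a b) (by
    filter_upwards [hM] with t ht
    rw [fibL_apply]
    simp only [Prod.smul_mk, Prod.mk_add_mk]
    field_simp)
  have h5 := h2.unique h4
  have e1 := congrArg J2.a h5
  have e2 := congrArg J2.b h5
  have e3 := congrArg J2.c h5
  simp only [J2.mul_a, J2.mul_b, J2.mul_c, hy] at e1 e2 e3
  refine ⟨by linear_combination e1, by linear_combination e2, by linear_combination e3⟩

end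

end Pool.Agent.Helper20.M8
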