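import Pool.Agent.Helper20.M8.SphDefs
import Pool.Agent.Helper76.HP.P2

/-!
# Derivatives of the one-form `lamV`
-/

open Filter Metric Module Set
open scoped Topology ContDiff RealInnerProductSpace Manifold

set_option maxSynthPendingDepth 3

namespace Pool.Agent.Helper20.M8
open Pool.Agent.Helper20.PC Pool.Agent.Helper20.HP
open Pool.Agent.Helper76.HP (ev_diff diff_fderiv contDiffAt_of_apply)

variable {B W : Type*} [NormedAddCommGroup B] [NormedSpace ℝ B] [NormedAddCommGroup W] [NormedSpace ℝ W]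
  {A : B → B →L[ℝ] W →L[ℝ] W}

lemma lamV_apply (z u : B × W) : lamV A z u = u.2 + A z.1 u.1 z.2 := by
  simp [lamV]

lemma lamV_zero {x : B} (h0 : A x = 0) (y : W) (u : B × W) : lamV A (x, y) u = u.2 := by
  simp [lamV_apply, h0]

/-- `A z.1 v.1 z.2` as a function of `z`. -/
lemma hasFDerivAt_Ay {z : B × W} (hA : DifferentiableAt ℝ A z.1) (ζ : B) :
    HasFDerivAt (fun w : B × W => A w.1 ζ w.2)
      (((A z.1 ζ) ∘L ContinuousLinearMap.snd ℝ B W)
        + (((fderiv ℝ A z.1).flip ζ).flip z.2) ∘L ContinuousLinearMap.fst ℝ B W) z := by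
  have f1 : HasFDerivAt (fun w : B × W => w.1) (ContinuousLinearMap.fst ℝ B W) z := hasFDerivAt_fst
  have f2 : HasFDerivAt (fun w : B × W => w.2) (ContinuousLinearMap.snd ℝ B W) z := hasFDerivAt_snd
  have n1 : HasFDerivAt (fun w : B × W => A w.1)
      ((fderiv ℝ A z.1).comp (ContinuousLinearMap.fst ℝ B W)) z :=
    HasFDerivAt.comp z hA.hasFDerivAt f1
  have n2 := (n1.clm_apply (hasFDerivAt_const ζ z)).clm_apply f2
  refine n2.congr_fderiv ?_
  ext w <;> simp

variable [FiniteDimensional ℝ B] [FiniteDimensional ℝ W]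

lemma contDiffAt_lamV {z : B × W} {n : WithTop ℕ∞} (hA : ContDiffAt ℝ n A z.1) : ContDiffAt ℝ n (lamV A) z := by
  refine contDiffAt_of_apply (fun u => ?_)
  simp only [lamV_apply]
  have a : ContDiffAt ℝ n (fun w : B × W => A w.1) z := hA.comp z contDiffAt_fst
  exact contDiffAt_const.add ((a.clm_apply contDiffAt_const).clm_apply contDiffAt_snd)

lemma fderiv_lamV {z : B × W} (hA : ContDiffAt ℝ 2 A z.1) (u v : B × W) :
    fderiv ℝ (lamV A) z u v = fderiv ℝ A z.1 u.1 v.1 z.2 + A z.1 v.1 u.2 := by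
  have h1 := ((contDiffAt_lamV hA).differentiableAt (by norm_num)).hasFDerivAt.clm_apply
    (hasFDerivAt_const v z)
  have h2 : HasFDerivAt (fun w : B × W => lamV A w v)
      (0 + (((A z.1 v.1) ∘L ContinuousLinearMap.snd ℝ B W)
        + (((fderiv ℝ A z.1).flip v.1).flip z.2) ∘L ContinuousLinearMap.fst ℝ B W)) z := by
    simp only [lamV_apply]
    exact (hasFDerivAt_const v.2 z).add (hasFDerivAt_Ay (hA.differentiableAt (by norm_num)) v.1)
  have h3 := DFunLike.congr_fun (h1.unique h2) u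
  simp at h3
  rw [h3]
  abel

lemma cc_lamV {x : B} (hA : ContDiffAt ℝ 2 A x) (A0 : A x = 0)
    (A1 : ∀ ζ, fderiv ℝ A x ζ ζ = 0) (y : W) (u v : B × W) :
    cc (lamV A) (x, y) u v = OmV A x u.1 v.1 y := by
  have e : fderiv ℝ A x v.1 u.1 = - fderiv ℝ A x u.1 v.1 := by
    have h1 := A1 (u.1 + v.1)
    simp only [map_add, _root_.add_apply, A1, zero_add, add_zero] at h1
    exact eq_neg_of_add_eq_zero_left h1
  rw [cc, fderiv_lamV hA, OmV, e, A0]
  simp
  module

lemma fderiv2_lamV {z : B × W} (hA : ContDiffAt ℝ 2 A z.1) (s u v : B × W) :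
    fderiv ℝ (fun z' => fderiv ℝ (lamV A) z' u v) z s
      = fderiv ℝ (fun x' => fderiv ℝ A x' u.1 v.1) z.1 s.1 z.2 + fderiv ℝ A z.1 u.1 v.1 s.2
        + fderiv ℝ A z.1 s.1 v.1 u.2 := by
  have cf : Tendsto (fun w : B × W => w.1) (𝓝 z) (𝓝 z.1) := continuous_fst.tendsto z
  have e : (fun z' : B × W => fderiv ℝ (lamV A) z' u v) =ᶠ[𝓝 z]
      (fun w => fderiv ℝ A w.1 u.1 v.1 w.2 + A w.1 v.1 u.2) := by
    filter_upwards [cf.eventually (hA.eventually (by norm_num))] with w hw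
    exact fderiv_lamV hw u v
  have f1 : HasFDerivAt (fun w : B × W => w.1) (ContinuousLinearMap.fst ℝ B W) z := hasFDerivAt_fst
  have f2 : HasFDerivAt (fun w : B × W => w.2) (ContinuousLinearMap.snd ℝ B W) z := hasFDerivAt_snd
  have d1 : HasFDerivAt (fun x' => fderiv ℝ A x' u.1 v.1)
      (fderiv ℝ (fun x' => fderiv ℝ A x' u.1 v.1) z.1) z.1 :=
    (((diff_fderiv hA).clm_apply (differentiableAt_const _)).clm_apply
      (differentiableAt_const _)).hasFDerivAt
  have n1 : HasFDerivAt (fun w : B × W => fderiv ℝ A w.1 u.1 v.1)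
      ((fderiv ℝ (fun x' => fderiv ℝ A x' u.1 v.1) z.1).comp (ContinuousLinearMap.fst ℝ B W)) z :=
    HasFDerivAt.comp z d1 f1
  have n2 := n1.clm_apply f2
  have n3 : HasFDerivAt (fun w : B × W => A w.1)
      ((fderiv ℝ A z.1).comp (ContinuousLinearMap.fst ℝ B W)) z :=
    HasFDerivAt.comp z (hA.differentiableAt (by norm_num)).hasFDerivAt f1
  have n4 := (n3.clm_apply (hasFDerivAt_const v.1 z)).clm_apply (hasFDerivAt_const u.2 z)
  have tot : HasFDerivAt (fun w : B × W => fderiv ℝ A w.1 u.1 v.1 w.2 + A w.1 v.1 u.2) _ z := n2.add n4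
  rw [e.fderiv_eq (𝕜 := ℝ), tot.fderiv]
  simp
  abel

lemma fderiv_OmV {x : B} (hA : ContDiffAt ℝ 2 A x) (A0 : A x = 0) (ξ ζ ζ' : B) :
    fderiv ℝ (fun x' => OmV A x' ζ ζ') x ξ
      = fderiv ℝ (fun x' => fderiv ℝ A x' ζ ζ') x ξ - fderiv ℝ (fun x' => fderiv ℝ A x' ζ' ζ) x ξ := by
  have dA := (hA.differentiableAt (by norm_num)).hasFDerivAt
  have d1 : ∀ a b, HasFDerivAt (fun x' => fderiv ℝ A x' a b)
      (fderiv ℝ (fun x' => fderiv ℝ A x' a b) x) x := fun a b =>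
    (((diff_fderiv hA).clm_apply (differentiableAt_const _)).clm_apply
      (differentiableAt_const _)).hasFDerivAt
  have a1 : ∀ a, HasFDerivAt (fun x' => A x' a) _ x := fun a => dA.clm_apply (hasFDerivAt_const a x)
  have tot : HasFDerivAt (fun x' => OmV A x' ζ ζ') _ x :=
    (((d1 ζ ζ').sub (d1 ζ' ζ)).add ((a1 ζ).clm_comp (a1 ζ'))).sub ((a1 ζ').clm_comp (a1 ζ))
  rw [tot.fderiv]
  simp [A0]

lemma ee_lamV {h : B → B →L[ℝ] B →L[ℝ] ℝ} {x : B} (hA : ContDiffAt ℝ 2 A x) (A0 : A x = 0)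
    (A1 : ∀ ζ, fderiv ℝ A x ζ ζ = 0) (y : W) (u v : B × W) :
    ee h (lamV A) (x, y) u v = DOmV h A x u.1 u.1 v.1 y + (3/2 : ℝ) • OmV A x u.1 v.1 u.2 := by
  have e : fderiv ℝ A x v.1 u.1 = - fderiv ℝ A x u.1 v.1 := by
    have h1 := A1 (u.1 + v.1)
    simp only [map_add, _root_.add_apply, A1, zero_add, add_zero] at h1
    exact eq_neg_of_add_eq_zero_left h1
  rw [ee, fderiv2_lamV hA, fderiv2_lamV hA, cc_lamV hA A0 A1, cc_lamV hA A0 A1, DOmV,
    fderiv_OmV hA A0]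
  simp only [A0, A1, e, OmV, _root_.sub_apply, _root_.add_apply, _root_.zero_apply, _root_.neg_apply,
    map_zero, ContinuousLinearMap.zero_comp, ContinuousLinearMap.comp_zero, sub_zero, add_zero]
  module

end Pool.Agent.Helper20.M8
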