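import Pool.Agent.Helper20.M8.ExactD
import Pool.Agent.Helper20.M8.Fib
import Pool.Agent.Helper20.M8.Lam

/-!
# The exact curvature formula of the sphere bundle in normal gauge
-/

open Filter Metric Module Set
open scoped Topology ContDiff RealInnerProductSpace Manifold

set_option maxSynthPendingDepth 3

namespace Pool.Agent.Helper20.M8
open Pool.Agent.Helper20.PC Pool.Agent.Helper20.HP
open Pool.Agent.Helper76.HP (ev_diff diff_fderiv contDiffAt_of_apply)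

section
variable {B W : Type*} [NormedAddCommGroup B] [NormedSpace ℝ B] [NormedAddCommGroup W] [NormedSpace ℝ W]
  {h : B → B →L[ℝ] B →L[ℝ] ℝ} {m : B → W →L[ℝ] W →L[ℝ] ℝ}
  {S : B → W →L[ℝ] W →L[ℝ] W →L[ℝ] W →L[ℝ] ℝ} {A : B → B →L[ℝ] W →L[ℝ] W} {x : B}

variable [FiniteDimensional ℝ W]

lemma ddNz_mixed (H : NG h m S A x) {δ : ℝ} {y : W} (hy : m x y y = 1) (ζ ζ' : B) {p q : W}
    (hp : m x y p = 0) (hq : m x y q = 0) (a b : W) :
    ddNz (fibL m S δ) (x, y) (ζ, p) (ζ', q) a b + 4 * m x p q * fibL m S δ (x, y) a b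
      = (1 - δ ^ 2) * (m x p a * m x q b + m x q a * m x p b) + δ ^ 2 * (2 * m x p q * m x a b)
        - δ ^ 4 * (ddS4 S x ζ ζ' y a y b + dS4 S x ζ q a y b + dS4 S x ζ y a q b
          + dS4 S x ζ' p a y b + dS4 S x ζ' y a p b + S x p a q b + S x q a p b) := by
  have hN : ContDiffAt ℝ 2 (fibL m S δ) (x, y) :=
    contDiffAt_fibL H.hm.smooth H.hS (by rw [show m (x, y).1 (x, y).2 (x, y).2 = 1 from hy]; norm_num) δ
  have e1 := (N_eqs H hy ζ p a b (δ := δ)).2.2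
  have e2 := (N_eqs H hy ζ' q a b (δ := δ)).2.2
  have hpq : m x y (p + q) = 0 := by rw [map_add, hp, hq, add_zero]
  have e3 := (N_eqs H hy (ζ + ζ') (p + q) a b (δ := δ)).2.2
  have sw : fderiv ℝ (fderiv ℝ (fibL m S δ)) (x, y) (ζ', q) (ζ, p)
      = fderiv ℝ (fderiv ℝ (fibL m S δ)) (x, y) (ζ, p) (ζ', q) :=
    (hN.isSymmSndFDerivAt (by simp)) (ζ', q) (ζ, p)
  have pol : ddNz (fibL m S δ) (x, y) (ζ + ζ', p + q) (ζ + ζ', p + q) a b
      = ddNz (fibL m S δ) (x, y) (ζ, p) (ζ, p) a b + ddNz (fibL m S δ) (x, y) (ζ', q) (ζ', q) a b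
        + 2 * ddNz (fibL m S δ) (x, y) (ζ, p) (ζ', q) a b := by
    have e : ((ζ + ζ', p + q) : B × W) = (ζ, p) + (ζ', q) := rfl
    simp only [ddNz_eq hN, e, map_add, _root_.add_apply, sw]
    ring
  have sm : m x q p = m x p q := H.hm.symm.self_of_nhds q p
  rw [hp] at e1
  rw [hq] at e2
  rw [hpq, pol, ddS4_polar H.hS] at e3
  simp only [dS4_add, map_add, _root_.add_apply, sm] at e3
  have l1 : ∀ ζ a' b' c' , dS4 S x ζ (p + q) a' b' c' = dS4 S x ζ p a' b' c' + dS4 S x ζ q a' b' c' := by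
    intro ζ a' b' c'
    have hs : ∀ a b c d, DifferentiableAt ℝ (fun x' => S x' a b c d) x := fun a b c d =>
      ((((H.hS.clm_apply contDiffAt_const).clm_apply contDiffAt_const).clm_apply
      contDiffAt_const).clm_apply contDiffAt_const).differentiableAt (by norm_num)
    simp only [dS4, map_add, _root_.add_apply]
    rw [fderiv_fun_add (hs _ _ _ _) (hs _ _ _ _)]
    simp
  have l3 : ∀ ζ a' b' c' , dS4 S x ζ a' b' (p + q) c' = dS4 S x ζ a' b' p c' + dS4 S x ζ a' b' q c' := by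
    intro ζ a' b' c'
    rw [dS4_pair H, l1, dS4_pair H, dS4_pair H ζ q]
  simp only [l1, l3] at e3
  linear_combination (1/2) * e3 - (1/2) * e1 - (1/2) * e2

/-- values of `N` with a tangential argument. -/
lemma N_tan (H : NG h m S A x) {δ : ℝ} {y : W} (hy : m x y y = 1) {a b : W}
    (hab : m x y a = 0 ∨ m x y b = 0) : fibL m S δ (x, y) a b = δ ^ 2 * MM m S δ x y a b := by
  rw [(N_eqs H hy 0 0 a b (δ := δ)).1, MM]
  rcases hab with h1 | h1 <;> rw [h1] <;> ring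

lemma hess_eq (H : NG h m S A x) {δ : ℝ} {y : W} (hy : m x y y = 1) (ζ ζ' : B) {p q : W}
    (hp : m x y p = 0) (hq : m x y q = 0) {a b : W} (ha : m x y a = 0) (hb : m x y b = 0) :
    hessNz h (fibL m S δ) (x, y) (ζ, p) (ζ', q) a b
      = (1 - δ ^ 2) * (m x p a * m x q b + m x q a * m x p b) - 2 * δ ^ 2 * (m x p q * m x a b)
        + 4 * δ ^ 4 * (m x p q * S x y a y b)
        - δ ^ 4 * (hS4 h S x ζ ζ' y a y b + dS4 S x ζ q a y b + dS4 S x ζ y a q b
          + dS4 S x ζ' p a y b + dS4 S x ζ' y a p b + S x p a q b + S x q a p b) := by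
  have e1 := ddNz_mixed H hy ζ ζ' hp hq a b (δ := δ)
  have e2 := (N_eqs H hy (Gam h x ζ ζ') 0 a b (δ := δ)).2.1
  have e3 := N_tan H hy (Or.inl ha : m x y a = 0 ∨ m x y b = 0) (δ := δ)
  rw [hessNz, hS4]
  simp only [map_zero, _root_.zero_apply] at e2
  rw [e3, MM] at e1 e2
  simp only
  linear_combination e1 - e2

variable [FiniteDimensional ℝ B]

/-- the vertical part of the difference tensor. -/
lemma isVz_of (H : NG h m S A x) {δ : ℝ} {y : W} (hy : m x y y = 1) (ζ ζ' : B) {p q : W}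
    (hp : m x y p = 0) (hq : m x y q = 0) {t : W} (ht : IsVF m S δ x y ζ p ζ' q t) :
    IsVz (fibL m S δ) (lamV A) (x, y) (ζ, p) (ζ', q) (m x p q • y + t) := by
  intro ξ
  obtain ⟨ht0, ht1⟩ := ht
  have sm := H.hm.symm.self_of_nhds
  have c0 : ∀ u : B × W, cc (lamV A) (x, y) u (0, ξ) = 0 := by
    intro u
    rw [cc_lamV H.hA H.A0 H.A1]
    simp [OmV]
  have e1 := (N_eqs H hy ζ p q ξ (δ := δ)).2.1
  have e2 := (N_eqs H hy ζ' q p ξ (δ := δ)).2.1
  have e3 := (N_eqs H hy 0 ξ p q (δ := δ)).2.1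
  have e4 := (N_eqs H hy 0 0 y ξ (δ := δ)).1
  have e5 : fibL m S δ (x, y) t ξ = δ ^ 2 * MM m S δ x y t ξ := N_tan H hy (Or.inl ht0)
  have e6 := N_tan H hy (Or.inl hp : m x y p = 0 ∨ m x y q = 0) (δ := δ)
  -- decomposition of `ξ`
  obtain ⟨r, hr⟩ : ∃ r, r = m x y ξ := ⟨_, rfl⟩
  obtain ⟨ξ', hξ'⟩ : ∃ ξ', ξ' = ξ - r • y := ⟨_, rfl⟩
  have hξ : ξ = ξ' + r • y := by rw [hξ']; abel
  have hξ0 : m x y ξ' = 0 := by rw [hξ', map_sub, map_smul, hy, ← hr, smul_eq_mul, mul_one, sub_self]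
  have e7 := ht1 ξ' hξ0
  have sS := H.S2.self_of_nhds
  have aS := H.S1.self_of_nhds
  have z0 : dS4 S x (0 : B) y p y q = 0 := by simp [dS4]
  have dy : ∀ (ζ : B) (a : W), dS4 S x ζ y a y y = 0 := fun ζ a => by
    rw [dS4_pair H, dS4_self H]
  have dadd : ∀ (ζ : B) (a b' c' : W), dS4 S x ζ y a y (b' + r • c')
      = dS4 S x ζ y a y b' + r * dS4 S x ζ y a y c' := by
    intro ζ a b' c'
    have hs : ∀ a b c d, DifferentiableAt ℝ (fun x' => S x' a b c d) x := fun a b c d =>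
      ((((H.hS.clm_apply contDiffAt_const).clm_apply contDiffAt_const).clm_apply
      contDiffAt_const).clm_apply contDiffAt_const).differentiableAt (by norm_num)
    simp only [dS4, map_add, map_smul, smul_eq_mul]
    rw [fderiv_fun_add (hs _ _ _ _) ((hs _ _ _ _).const_mul r), fderiv_const_mul (hs _ _ _ _)]
    simp
  rw [hp, hq] at e1
  rw [hq, hp] at e2
  rw [e6, z0, hp, hq] at e3
  simp only [c0, map_zero, mul_zero, add_zero]
  rw [map_add, map_smul, _root_.add_apply, _root_.smul_apply, smul_eq_mul, e4, e5]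
  have y0 : S x y y y ξ = 0 := S_self H y y ξ
  have e8 : MM m S δ x y t ξ = MM m S δ x y t ξ' := by
    have a1 : m x t y = 0 := by rw [sm, ht0]
    have a2 : S x y t y y = 0 := by rw [sS, S_self H]
    rw [hξ, MM, MM]
    simp only [map_add, map_smul, smul_eq_mul, a1, a2]
    ring
  rw [e8, e7, y0]
  have b1 : dS4 S x ζ y q y ξ = dS4 S x ζ y q y ξ' := by rw [hξ, dadd, dy]; ring
  have b2 : dS4 S x ζ' y p y ξ = dS4 S x ζ' y p y ξ' := by rw [hξ, dadd, dy]; ring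
  have b3 : S x p q y ξ = - S x q p y ξ := aS p q y ξ
  have b4 : S x y q p ξ = S x y q p ξ' - r * S x y q y p := by
    rw [hξ]
    simp only [map_add, map_smul, smul_eq_mul]
    rw [sS y q p y, aS p y y q, sS y p y q]
    ring
  have b5 : S x y p q ξ = S x y p q ξ' - r * S x y p y q := by
    rw [hξ]
    simp only [map_add, map_smul, smul_eq_mul]
    rw [sS y p q y, aS q y y p, sS y q y p]
    ring
  have b6 : S x ξ p y q = - S x y q p ξ' + r * S x y p y q := by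
    rw [hξ]
    simp only [map_add, map_smul, smul_eq_mul, _root_.add_apply, _root_.smul_apply]
    rw [sS ξ' p y q, sS y q p ξ', aS p ξ' y q, sS ξ' p y q]
    ring
  have b7 : S x y p ξ q = - S x y p q ξ' + r * S x y p y q := by
    rw [hξ]
    simp only [map_add, map_smul, smul_eq_mul, _root_.add_apply, _root_.smul_apply]
    rw [sS y p ξ' q, aS ξ' q y p, sS q ξ' y p]
  have b8 : S x y q y p = S x y p y q := sS y q y p
  rw [b1, b3, b4] at e1
  rw [b2, b5] at e2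
  rw [b6, b7, MM] at e3
  rw [b8] at e1
  rw [← hr] at e1 e2 e3 ⊢
  rw [hy]
  have sm' := sm q p
  rw [sm'] at e2
  linear_combination (-1/2) * e1 - (1/2) * e2 + (1/2) * e3

/-- the horizontal part of the difference tensor. -/
lemma isHz_of (H : NG h m S A x) {δ : ℝ} {y : W} (hy : m x y y = 1) (ζ ζ' : B) {p q : W}
    (hp : m x y p = 0) (hq : m x y q = 0) {t : B} (ht : IsHF h m S A δ x y ζ p ζ' q t) :
    IsHz h (fibL m S δ) (lamV A) (x, y) (ζ, p) (ζ', q) t := by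
  intro ξ
  have e1 := (N_eqs H hy ξ 0 p q (δ := δ)).2.1
  have e2 := ht ξ
  simp only [map_zero, _root_.zero_apply, hp, hq] at e1
  have e3 : fibL m S δ (x, y) q (cc (lamV A) (x, y) (ζ, p) (ξ, 0))
      = δ ^ 2 * MM m S δ x y q (OmV A x ζ ξ y) := by
    rw [cc_lamV H.hA H.A0 H.A1, N_tan H hy (Or.inl hq)]
  have e4 : fibL m S δ (x, y) p (cc (lamV A) (x, y) (ζ', q) (ξ, 0))
      = δ ^ 2 * MM m S δ x y p (OmV A x ζ' ξ y) := by
    rw [cc_lamV H.hA H.A0 H.A1, N_tan H hy (Or.inl hp)]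
  simp only [e3, e4]
  rw [e2]
  linear_combination (1/2) * e1

/-- **The exact curvature formula in normal gauge.** -/
theorem num_SB (H : NG h m S A x) {δ : ℝ} {y : W} (hy : m x y y = 1)
    (hN : ∀ a, a ≠ 0 → 0 < fibL m S δ (x, y) a a) (ζ ζ' : B) {p q : W}
    (hp : m x y p = 0) (hq : m x y q = 0) {th thu thv : B} {t tu tv : W}
    (h1 : IsHF h m S A δ x y ζ p ζ' q th) (h2 : IsHF h m S A δ x y ζ p ζ p thu)
    (h3 : IsHF h m S A δ x y ζ' q ζ' q thv)
    (h4 : IsVF m S δ x y ζ p ζ' q t) (h5 : IsVF m S δ x y ζ p ζ p tu)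
    (h6 : IsVF m S δ x y ζ' q ζ' q tv) :
    num (SB h m S A δ) (x, y) (ζ, p) (ζ', q) = FN h m S A δ x y ζ p ζ' q
      + h x th th - h x thu thv + δ ^ 2 * MM m S δ x y t t - δ ^ 2 * MM m S δ x y tu tv := by
  have sm := H.hm.symm.self_of_nhds
  have hNs : ∀ᶠ z in 𝓝 (x, y), ∀ a b, fibL m S δ z a b = fibL m S δ z b a := by
    have cf : Tendsto (fun w : B × W => w.1) (𝓝 (x, y)) (𝓝 x) := continuous_fst.tendsto (x, y)
    filter_upwards [cf.eventually H.hm.symm, cf.eventually H.S2] with z hz1 hz2 a b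
    rw [fibL_apply, fibL_apply, hz1 a b, hz2 z.2 a z.2 b]
    ring
  have hNd : ContDiffAt ℝ 2 (fibL m S δ) (x, y) :=
    contDiffAt_fibL H.hm.smooth H.hS (by rw [show m (x, y).1 (x, y).2 (x, y).2 = 1 from hy]; norm_num) δ
  have hΛ1 : ∀ u : B × W, fderiv ℝ (lamV A) (x, y) u u = 0 := by
    intro u
    rw [fderiv_lamV H.hA]
    simp [H.A0, H.A1]
  have key := num_nMet (z := (x, y)) H.hh hNd hNs hN (contDiffAt_lamV H.hA) (lamV_zero H.A0 y) hΛ1
    (ζ, p) (ζ', q) (isHz_of H hy ζ ζ' hp hq h1) (isHz_of H hy ζ ζ hp hp h2)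
    (isHz_of H hy ζ' ζ' hq hq h3) (isVz_of H hy ζ ζ' hp hq h4) (isVz_of H hy ζ ζ hp hp h5)
    (isVz_of H hy ζ' ζ' hq hq h6)
  rw [SB, key]
  -- the individual terms
  obtain ⟨O, hO⟩ : ∃ O, O = OmV A x ζ ζ' := ⟨_, rfl⟩
  have hw : m x y (O y) = 0 := by rw [hO]; exact OmV_y H ζ ζ' y
  have c1 : cc (lamV A) (x, y) (ζ, p) (ζ', q) = O y := by rw [cc_lamV H.hA H.A0 H.A1, hO]
  have c2 : ee h (lamV A) (x, y) (ζ, p) (ζ', q) = DOmV h A x ζ ζ ζ' y + (3/2 : ℝ) • O p := by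
    rw [ee_lamV H.hA H.A0 H.A1, hO]
  have c3 : ee h (lamV A) (x, y) (ζ', q) (ζ, p) = DOmV h A x ζ' ζ' ζ y - (3/2 : ℝ) • O q := by
    rw [ee_lamV H.hA H.A0 H.A1, OmV_anti ζ ζ', hO]
    simp only [_root_.neg_apply, smul_neg]
    abel
  have n1 := (N_eqs H hy ζ p (O y) q (δ := δ)).2.1
  have n2 := (N_eqs H hy ζ' q (O y) p (δ := δ)).2.1
  simp only [hp, hq, hw] at n1 n2
  have n3 := N_tan H hy (Or.inl hw : m x y (O y) = 0 ∨ m x y (O y) = 0) (δ := δ)
  have n4 : ∀ a, fibL m S δ (x, y) a q = δ ^ 2 * MM m S δ x y a q := fun a => N_tan H hy (Or.inr hq)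
  have n5 : ∀ a, fibL m S δ (x, y) a p = δ ^ 2 * MM m S δ x y a p := fun a => N_tan H hy (Or.inr hp)
  have hyy : fibL m S δ (x, y) y y = 1 := by
    rw [(N_eqs H hy 0 0 y y (δ := δ)).1, S_self H, hy]; ring
  have hyt : ∀ s, m x y s = 0 → fibL m S δ (x, y) y s = 0 := by
    intro s hs
    rw [N_tan H hy (Or.inr hs), MM, hs, S_self H]; ring
  have hty : ∀ s, m x y s = 0 → fibL m S δ (x, y) s y = 0 := by
    intro s hs
    rw [hNs.self_of_nhds, hyt s hs]
  have n6 : ∀ (r r' : ℝ) (s s' : W), m x y s = 0 → m x y s' = 0 →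
      fibL m S δ (x, y) (r • y + s) (r' • y + s') = r * r' + δ ^ 2 * MM m S δ x y s s' := by
    intro r r' s s' hs hs'
    simp only [map_add, map_smul, _root_.add_apply, _root_.smul_apply, smul_eq_mul, hyy, hyt s' hs',
      hty s hs, N_tan H hy (Or.inl hs : m x y s = 0 ∨ m x y s' = 0)]
    ring
  rw [n6 _ _ _ _ h4.1 h4.1, n6 _ _ _ _ h5.1 h6.1]
  simp only [c1, c2, c3, map_add, map_sub, map_smul, _root_.add_apply, _root_.sub_apply,
    _root_.smul_apply, smul_eq_mul, n3, n4, n5]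
  rw [hess_eq H hy ζ ζ hp hp hq hq, hess_eq H hy ζ' ζ' hq hq hp hp, hess_eq H hy ζ ζ' hp hq hp hq]
  -- symmetries
  have sS := H.S2.self_of_nhds
  have aS := H.S1.self_of_nhds
  have d1 : dS4 S x ζ y q p q = dS4 S x ζ p q y q := dS4_pair H ζ y q p q
  have d2 : dS4 S x ζ' y p q p = dS4 S x ζ' q p y p := dS4_pair H ζ' y p q p
  have d3 : dS4 S x ζ q p y q = - dS4 S x ζ p q y q := dS4_anti H ζ q p y q
  have d4 : dS4 S x ζ y p q q = 0 := by rw [dS4_pair H, dS4_self H]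
  have d5 : dS4 S x ζ' p p y q = 0 := dS4_self H ζ' p y q
  have d6 : dS4 S x ζ' y p p q = - dS4 S x ζ' q p y p := by
    rw [dS4_pair H, dS4_anti H]
  have s1 : S x q p q p = S x p q p q := by rw [aS q p q p, sS p q q p, aS q p p q]; ring
  have s2 : S x p p q q = 0 := S_self H p q q
  have s3 : S x q p p q = - S x p q p q := aS q p p q
  have mqp : m x q p = m x p q := sm q p
  rw [FN]
  simp only [MM] at n1 n2 ⊢
  rw [← hO]
  rw [d1, d2, d3, d4, d5, d6, s1, s2, s3, mqp]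
  linear_combination (-3/2) * n1 + (3/2) * n2

end

end Pool.Agent.Helper20.M8
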