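import Pool.Agent.Helper20.M8.SphDefs
import Pool.Agent.Helper76.HP.P2

/-!
# The derivatives of `S` and symmetries in normal gauge
-/

open Filter Metric Module Set
open scoped Topology ContDiff RealInnerProductSpace Manifold

set_option maxSynthPendingDepth 3

namespace Pool.Agent.Helper20.M8
open Pool.Agent.Helper20.PC Pool.Agent.Helper20.HP
open Pool.Agent.Helper76.HP (ev_diff diff_fderiv contDiffAt_of_apply)

section
variable {B W : Type*} [NormedAddCommGroup B] [NormedSpace ℝ B] [NormedAddCommGroup W] [NormedSpace ℝ W]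
  {h : B → B →L[ℝ] B →L[ℝ] ℝ} {m : B → W →L[ℝ] W →L[ℝ] ℝ}
  {S : B → W →L[ℝ] W →L[ℝ] W →L[ℝ] W →L[ℝ] ℝ} {A : B → B →L[ℝ] W →L[ℝ] W} {x : B}

lemma dS4_add (ζ ζ' : B) (a b c d : W) :
    dS4 S x (ζ + ζ') a b c d = dS4 S x ζ a b c d + dS4 S x ζ' a b c d := by
  simp [dS4]

lemma ddS4_eq (hS : @ContDiffAt ℝ _ B _ _ (W →L[ℝ] W →L[ℝ] W →L[ℝ] W →L[ℝ] ℝ) (ngk4 W) (nsk4 W) 2 S x) (ξ ζ : B) (a b c d : W) :
    ddS4 S x ξ ζ a b c d = fderiv ℝ (fderiv ℝ (fun x' => S x' a b c d)) x ξ ζ := by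
  have hs : ContDiffAt ℝ 2 (fun x' => S x' a b c d) x :=
    (((hS.clm_apply contDiffAt_const).clm_apply contDiffAt_const).clm_apply
      contDiffAt_const).clm_apply contDiffAt_const
  have := ((diff_fderiv hs).hasFDerivAt.clm_apply (hasFDerivAt_const ζ x)).fderiv
  rw [ddS4]
  simp only [dS4]
  rw [this]
  simp

lemma ddS4_polar (hS : @ContDiffAt ℝ _ B _ _ (W →L[ℝ] W →L[ℝ] W →L[ℝ] W →L[ℝ] ℝ) (ngk4 W) (nsk4 W) 2 S x) (ζ ζ' : B) (a b c d : W) :
    ddS4 S x (ζ + ζ') (ζ + ζ') a b c d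
      = ddS4 S x ζ ζ a b c d + ddS4 S x ζ' ζ' a b c d + 2 * ddS4 S x ζ ζ' a b c d := by
  have hs : ContDiffAt ℝ 2 (fun x' => S x' a b c d) x :=
    (((hS.clm_apply contDiffAt_const).clm_apply contDiffAt_const).clm_apply
      contDiffAt_const).clm_apply contDiffAt_const
  have e := (hs.isSymmSndFDerivAt (by simp)) ζ ζ'
  simp only [ddS4_eq hS, map_add, _root_.add_apply]
  rw [e]
  ring

/-! ### first-order symmetries of the derivatives of `S` -/

lemma dS4_anti (H : NG h m S A x) (ζ : B) (a b c d : W) :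
    dS4 S x ζ a b c d = - dS4 S x ζ b a c d := by
  have e : (fun x' => S x' a b c d) =ᶠ[𝓝 x] (fun x' => - S x' b a c d) :=
    H.S1.mono (fun x' hx' => hx' a b c d)
  rw [dS4, dS4, e.fderiv_eq (𝕜 := ℝ), fderiv_fun_neg]
  simp

lemma dS4_pair (H : NG h m S A x) (ζ : B) (a b c d : W) :
    dS4 S x ζ a b c d = dS4 S x ζ c d a b := by
  have e : (fun x' => S x' a b c d) =ᶠ[𝓝 x] (fun x' => S x' c d a b) :=
    H.S2.mono (fun x' hx' => hx' a b c d)
  rw [dS4, dS4, e.fderiv_eq (𝕜 := ℝ)]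

lemma dS4_self (H : NG h m S A x) (ζ : B) (a c d : W) : dS4 S x ζ a a c d = 0 := by
  have := dS4_anti H ζ a a c d
  linarith only [this]

lemma S_self (H : NG h m S A x) (a c d : W) : S x a a c d = 0 := by
  have := H.S1.self_of_nhds a a c d
  linarith

lemma OmV_skew (H : NG h m S A x) (ζ ζ' : B) (a b : W) :
    m x (OmV A x ζ ζ' a) b = - m x a (OmV A x ζ ζ' b) := by
  simp only [OmV, H.A0, _root_.zero_apply, ContinuousLinearMap.zero_comp, add_zero, sub_zero,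
    _root_.sub_apply, map_sub, H.skew]
  ring

lemma OmV_anti (ζ ζ' : B) : OmV A x ζ' ζ = - OmV A x ζ ζ' := by
  simp only [OmV]; abel

lemma OmV_y (H : NG h m S A x) (ζ ζ' : B) (y : W) : m x y (OmV A x ζ ζ' y) = 0 := by
  have h1 := OmV_skew H ζ ζ' y y
  have h2 := H.hm.symm.self_of_nhds (OmV A x ζ ζ' y) y
  linarith

end

end Pool.Agent.Helper20.M8
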