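import Pool.Agent.Helper20.M8.Defs

/-!
# The metric of a sphere bundle

`B` is the base, `W` the fibre, `m` a family of inner products on `W`, `A` a connection form,
`S` a family of forms on `Λ² W` (written as a 4-linear form). The metric on `B × (W ∖ 0)` is
`h + N(Λ, Λ)`, `Λ = p + A_x(ζ) y`,
`N(p, p) = ((1-δ²) m(y,p)² + δ² m(y,y) m(p,p) - δ⁴ S(y,p;y,p)) / m(y,y)²`,
the Riemannian product of a line and of the unit sphere bundle.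
-/

open Filter Metric Module Set
open scoped Topology ContDiff RealInnerProductSpace Manifold

set_option maxSynthPendingDepth 3

namespace Pool.Agent.Helper20.M8
open Pool.Agent.Helper20.PC Pool.Agent.Helper20.HP

section inst
variable (W : Type*) [NormedAddCommGroup W] [NormedSpace ℝ W]
/-- the usual norm of 4-linear forms. -/
@[reducible] noncomputable def ngk4 : NormedAddCommGroup (W →L[ℝ] W →L[ℝ] W →L[ℝ] W →L[ℝ] ℝ) :=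
  inferInstance
/-- the usual normed space of 4-linear forms. -/
@[reducible] noncomputable def nsk4 : @NormedSpace ℝ (W →L[ℝ] W →L[ℝ] W →L[ℝ] W →L[ℝ] ℝ) _
    (ngk4 W).toSeminormedAddCommGroup := inferInstance
end inst

section
variable {B W : Type*} [NormedAddCommGroup B] [NormedSpace ℝ B] [NormedAddCommGroup W] [NormedSpace ℝ W]

/-- the one-form `p + A_x(ζ) y`. -/
noncomputable def lamV (A : B → B →L[ℝ] W →L[ℝ] W) (z : B × W) : B × W →L[ℝ] W :=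
  ContinuousLinearMap.snd ℝ B W + ((A z.1).flip z.2) ∘L ContinuousLinearMap.fst ℝ B W

/-- the form on the fibre. -/
noncomputable def fibL (m : B → W →L[ℝ] W →L[ℝ] ℝ)
    (S : B → W →L[ℝ] W →L[ℝ] W →L[ℝ] W →L[ℝ] ℝ) (δ : ℝ) (z : B × W) : W →L[ℝ] W →L[ℝ] ℝ :=
  ((m z.1 z.2 z.2) ^ 2)⁻¹ • ((1 - δ ^ 2) • (m z.1 z.2).smulRight (m z.1 z.2)
    + (δ ^ 2 * m z.1 z.2 z.2) • m z.1 - (δ ^ 4) • (S z.1 z.2).flip z.2)

/-- the metric of the sphere bundle. -/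
noncomputable def SB (h : B → B →L[ℝ] B →L[ℝ] ℝ) (m : B → W →L[ℝ] W →L[ℝ] ℝ)
    (S : B → W →L[ℝ] W →L[ℝ] W →L[ℝ] W →L[ℝ] ℝ) (A : B → B →L[ℝ] W →L[ℝ] W) (δ : ℝ) :
    B × W → (B × W) →L[ℝ] (B × W) →L[ℝ] ℝ :=
  nMet h (fibL m S δ) (lamV A)

/-- the curvature of `A`. -/
noncomputable def OmV (A : B → B →L[ℝ] W →L[ℝ] W) (x ζ ζ' : B) : W →L[ℝ] W :=
  fderiv ℝ A x ζ ζ' - fderiv ℝ A x ζ' ζ + (A x ζ) ∘L (A x ζ') - (A x ζ') ∘L (A x ζ)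

/-- the covariant derivative `(∇_ξ Ω)(ζ, ζ')`. -/
noncomputable def DOmV (h : B → B →L[ℝ] B →L[ℝ] ℝ) (A : B → B →L[ℝ] W →L[ℝ] W) (x ξ ζ ζ' : B) :
    W →L[ℝ] W :=
  fderiv ℝ (fun x' => OmV A x' ζ ζ') x ξ + (A x ξ) ∘L (OmV A x ζ ζ') - (OmV A x ζ ζ') ∘L (A x ξ)
    - OmV A x (Gam h x ξ ζ) ζ' - OmV A x ζ (Gam h x ξ ζ')

/-- first derivative of `S`. -/
noncomputable def dS4 (S : B → W →L[ℝ] W →L[ℝ] W →L[ℝ] W →L[ℝ] ℝ) (x ζ : B) (a b c d : W) : ℝ :=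
  fderiv ℝ (fun x' => S x' a b c d) x ζ

/-- second derivative of `S`. -/
noncomputable def ddS4 (S : B → W →L[ℝ] W →L[ℝ] W →L[ℝ] W →L[ℝ] ℝ) (x ξ ζ : B) (a b c d : W) : ℝ :=
  fderiv ℝ (fun x' => dS4 S x' ζ a b c d) x ξ

/-- second derivative of `S`, covariant in the base. -/
noncomputable def hS4 (h : B → B →L[ℝ] B →L[ℝ] ℝ) (S : B → W →L[ℝ] W →L[ℝ] W →L[ℝ] W →L[ℝ] ℝ)
    (x ξ ζ : B) (a b c d : W) : ℝ :=
  ddS4 S x ξ ζ a b c d - dS4 S x (Gam h x ξ ζ) a b c d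

/-- Normal gauge at `x`. -/
structure NG (h : B → B →L[ℝ] B →L[ℝ] ℝ) (m : B → W →L[ℝ] W →L[ℝ] ℝ)
    (S : B → W →L[ℝ] W →L[ℝ] W →L[ℝ] W →L[ℝ] ℝ) (A : B → B →L[ℝ] W →L[ℝ] W) (x : B) : Prop where
  hh : MetAt h x
  hm : FormAt m x
  m1 : fderiv ℝ m x = 0
  m2 : fderiv ℝ (fderiv ℝ m) x = 0
  hS : @ContDiffAt ℝ _ B _ _ (W →L[ℝ] W →L[ℝ] W →L[ℝ] W →L[ℝ] ℝ) (ngk4 W) (nsk4 W) 2 S x
  S1 : ∀ᶠ x' in 𝓝 x, ∀ a b c d, S x' a b c d = - S x' b a c d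
  S2 : ∀ᶠ x' in 𝓝 x, ∀ a b c d, S x' a b c d = S x' c d a b
  hA : ContDiffAt ℝ 2 A x
  A0 : A x = 0
  A1 : ∀ ζ, fderiv ℝ A x ζ ζ = 0
  skew : ∀ ζ ζ' a b, m x (fderiv ℝ A x ζ ζ' a) b = - m x a (fderiv ℝ A x ζ ζ' b)

/-- the form `M(a,b) = m(a,b) - δ² S(y,a;y,b)`. -/
noncomputable def MM (m : B → W →L[ℝ] W →L[ℝ] ℝ) (S : B → W →L[ℝ] W →L[ℝ] W →L[ℝ] W →L[ℝ] ℝ)
    (δ : ℝ) (x : B) (y a b : W) : ℝ := m x a b - δ ^ 2 * S x y a y b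

/-- the explicit part of the formula in normal gauge. -/
noncomputable def FN (h : B → B →L[ℝ] B →L[ℝ] ℝ) (m : B → W →L[ℝ] W →L[ℝ] ℝ)
    (S : B → W →L[ℝ] W →L[ℝ] W →L[ℝ] W →L[ℝ] ℝ) (A : B → B →L[ℝ] W →L[ℝ] W) (δ : ℝ)
    (x : B) (y : W) (ζ : B) (p : W) (ζ' : B) (q : W) : ℝ :=
  let O := OmV A x ζ ζ'
  let w := O y
  num h x ζ ζ' + δ ^ 2 * (m x p p * m x q q - m x p q ^ 2)
    - 2 * δ ^ 4 * (m x p p * S x y q y q + m x q q * S x y p y p - 2 * m x p q * S x y p y q)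
    + (1/2) * δ ^ 4 * (hS4 h S x ζ ζ y q y q + hS4 h S x ζ' ζ' y p y p - 2 * hS4 h S x ζ ζ' y p y q
      + 6 * dS4 S x ζ p q y q + 6 * dS4 S x ζ' q p y p + 6 * S x p q p q)
    + (3/2) * δ ^ 4 * (dS4 S x ζ y w y q + S x p w y q + S x y w p q)
    - (3/2) * δ ^ 4 * (dS4 S x ζ' y w y p + S x q w y p + S x y w q p)
    - (3/4) * δ ^ 2 * MM m S δ x y w w
    - δ ^ 2 * MM m S δ x y (DOmV h A x ζ ζ ζ' y) q - (3/2) * δ ^ 2 * MM m S δ x y (O p) q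
    - δ ^ 2 * MM m S δ x y (DOmV h A x ζ' ζ' ζ y) p + (3/2) * δ ^ 2 * MM m S δ x y (O q) p

/-- horizontal part of the difference tensor. -/
def IsHF (h : B → B →L[ℝ] B →L[ℝ] ℝ) (m : B → W →L[ℝ] W →L[ℝ] ℝ)
    (S : B → W →L[ℝ] W →L[ℝ] W →L[ℝ] W →L[ℝ] ℝ) (A : B → B →L[ℝ] W →L[ℝ] W) (δ : ℝ)
    (x : B) (y : W) (ζ : B) (p : W) (ζ' : B) (q : W) (t : B) : Prop :=
  ∀ ξ : B, h x t ξ = (1/2) * δ ^ 4 * dS4 S x ξ y p y q + (1/2) * δ ^ 2 * MM m S δ x y q (OmV A x ζ ξ y)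
    + (1/2) * δ ^ 2 * MM m S δ x y p (OmV A x ζ' ξ y)

/-- vertical part of the difference tensor. -/
def IsVF (m : B → W →L[ℝ] W →L[ℝ] ℝ)
    (S : B → W →L[ℝ] W →L[ℝ] W →L[ℝ] W →L[ℝ] ℝ) (δ : ℝ)
    (x : B) (y : W) (ζ : B) (p : W) (ζ' : B) (q : W) (t : W) : Prop :=
  m x y t = 0 ∧ ∀ ξ : W, m x y ξ = 0 → MM m S δ x y t ξ =
    -(1/2) * δ ^ 2 * (dS4 S x ζ y q y ξ + dS4 S x ζ' y p y ξ + 2 * S x y q p ξ + 2 * S x y p q ξ)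

end

end Pool.Agent.Helper20.M8
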